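import Mathlib
import Pool.Agent.H904.CC.Fin

/-!
# Cycles of the `3x+1` map which are cut into blocks of one type

A cycle of the `3x+1` map on the integers is cut into blocks of length `l` each of which contains
the same number `m` of odd terms (we say that the blocks are of one type).

* Different blocks have different parity words. So a cycle composed of blocks of one type with at
  most `N` different parity words has at most `N` blocks.
* A cycle composed of blocks of one type whose values lie in an arithmetic progression with `Q + 1`
  terms, with `Q N ^ 2 < 2 ^ (m + 3)` where `N` is the number of the different values, has at most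
  two blocks; and it is a single block if the values differ by less than `2 ^ l + 3 ^ m`.

The second part holds for all the maps `x ↦ x / 2`, `(p x + c) / 2` (`p ≥ 3` and `c` odd), with the
number of the blocks instead of the number of the different values. It is proved with the norms of
elements of cyclotomic fields: for every `e ≥ 3` which divides the number of the blocks the number
`b ^ φ(e) Φ_e (a / b)` (`a = 2 ^ l`, `b = p ^ m`) divides the product of the common difference and
the norm of a sum of roots of unity, which is too small.
-/

set_option autoImplicit false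

namespace Pool.Agent.Results.MP_edb5be_nt.BlocksOfOneType

open Finset Pool.Agent.H904.CC

theorem result :
    -- the `3x+1` map: cycles with blocks of length `l` with `m` odd terms each
    (∀ (l m d : ℕ) (x : ℤ), 0 < l → 0 < d → (T 3 1)^[d * l] x = x →
      (∀ i < d, odds 3 1 l x i = m) →
      (∀ i j, value 3 1 l x i = value 3 1 l x j → st 3 1 l x i = st 3 1 l x j) ∧
      (∃ D, 0 < D ∧ D ≤ ((range d).image (value 3 1 l x)).card ∧ (T 3 1)^[D * l] x = x) ∧
      (∀ g Q : ℤ, 0 < g → (∀ i < d, ∀ j < d, g ∣ value 3 1 l x i - value 3 1 l x j) →
        (∀ i < d, ∀ j < d, value 3 1 l x i - value 3 1 l x j ≤ g * Q) →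
        Q * (((range d).image (value 3 1 l x)).card : ℤ) ^ 2 < 2 ^ (m + 3) →
        (T 3 1)^[2 * l] x = x)) ∧
    -- the maps `x ↦ x / 2, (p x + c) / 2`
    (∀ p c : ℤ, Odd p → 3 ≤ p → Odd c → ∀ (l m d : ℕ) (x : ℤ), 0 < l → 0 < d →
      (T p c)^[d * l] x = x → (∀ i < d, odds p c l x i = m) →
      (∀ g Q : ℤ, 0 < g → (∀ i < d, ∀ j < d, g ∣ value p c l x i - value p c l x j) →
        (∀ i < d, ∀ j < d, value p c l x i - value p c l x j ≤ g * Q) →
        |c| * Q * d ^ 2 < (p - 2) * 2 ^ (m + 3) → (T p c)^[2 * l] x = x) ∧
      ((T p c)^[2 * l] x = x →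
        (∀ i < d, ∀ j < d, |c * (value p c l x i - value p c l x j)| < 2 ^ l + p ^ m) →
        (T p c)^[l] x = x)) := by
  refine ⟨fun l m d x hl hd hx hm => ⟨fun i j hij => ne_blocks l m d hl hd x hx hm i j hij, ?_,
    fun g Q hg hgw hQ hcond => main31 l m d hl hd x hx hm g Q hg hgw hQ hcond⟩,
    fun p c hp hp3 hc l m d x hl hd hx hm => ⟨fun g Q hg hgw hQ hcond =>
      general p c hp hp3 hc l m d hl hd x hx hm g Q hg hgw hQ hcond, fun h2 hH => ?_⟩⟩
  · obtain ⟨D, hD0, hDd, hDx, hinj⟩ := least_blocks 3 1 l d hd x hx
    refine ⟨D, hD0, ?_, hDx⟩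
    calc D = (range D).card := (card_range D).symm
      _ = ((range D).image (value 3 1 l x)).card := by
          rw [card_image_of_injOn]
          intro i hi j hj hij
          exact hinj i (by simpa using hi) j (by simpa using hj)
            (ne_blocks l m d hl hd x hx hm i j hij)
      _ ≤ _ := card_le_card (image_subset_image (range_subset_range.2 hDd))
  · rcases Nat.lt_or_ge d 2 with h | h
    · have : d = 1 := by omega
      rw [this, one_mul] at hx
      exact hx
    · exact one_block p c hp hp3 hc l m x h2 (hm 0 hd) (hm 1 h) (hH 0 hd 1 h)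

end Pool.Agent.Results.MP_edb5be_nt.BlocksOfOneType
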