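import Pool.Agent.H620.Inf2.Side
import Pool.Agent.H620.Inf2.Depth

/-!
# The basins of the cycles of the `3x+1` map on the integers, and circuits of small depth

Let `T` be the map `n / 2`, `(3 n + 1) / 2` on the integers. For a family `F` of cycles of `T` and `s = 1` or `s = -1` let
`Enters F s` be the set of the positive integers `n` such that the trajectory of `s n` enters a cycle of the family.

Theorem. (1) For every family `F` of cycles of `T`, known or unknown, and both signs `s`: the set `Enters F s` is empty, or the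
set of all positive integers, or it has the following two properties, for all `0 < γ < 1 / 2`.

(a) Its total influence on the `k` lowest binary digits, that is the mean number of the binary digits of `n < 2 ^ k` whose
change moves `n` from the set to the complement or back, is larger than `k ^ γ` for infinitely many `k`.

(b) For infinitely many `k` and all `D ≥ 2` with `(D - 1) (log log k + 1) ≤ γ log k`, each circuit of depth at most `D` (with gates
NOT, AND, OR of unbounded fan-in) and size at most `exp (k ^ (γ / (D - 1)))` is wrong about the membership in the set for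
more than `2 ^ k / k ^ (1 - γ)` of the `n < 2 ^ k`.

(2) Every cycle of `T` is one of the five known cycles if and only if for both signs the set of the integers that enter a
cycle which is not known is in (nonuniform) `AC0`; also if and only if both sets are decided by circuits of polynomial size and
of depth `a log k / log log k`, for some `a < 1 / 2`; also if and only if both can be decided up to a small proportion
`1 / k ^ (1 - γ)` of exceptions by circuits as in (b). In other words: if there is a further cycle, then no circuits of small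
depth can recognise the integers which run into further cycles, not even on average.

Proof. (b) follows from (a) and from the bound of Linial, Mansour, Nisan and Boppana for the total influence of circuits of
small depth. For (a), suppose that the total influence is small. Then there is a window `[J, J + b)` of digits, of the
length `b = k ^ δ'`, whose influences are small. Now the values after `J` steps for `n = 2 ^ J U + L` are of the form
`3 ^ o U + v`, for `0 ≤ v < 3 ^ o`, and the values of two lower parts `L`, `L'` with `v`, `v'` near to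
each other coalesce after `b` steps for at least half of the digits in the window. So the membership
of `n` is given, for most `n`, by the majority in the part of the partition of the `L` by `o` and by the quotient of `v` by
`3 ^ μ`. Comparing two such partitions, with pairs of levels `{o, o + 1}` shifted by one, one finds that the membership is a
function of the integer part `q` of `3 ^ (o₀ - μ) n / 2 ^ J` only, for most `n < 2 ^ k`, and the same as that of `3 ^ μ q + r`.
The composition of such statements through all the scales contradicts the existence of the natural density of the set,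
which is neither `0` nor `1`.
-/

set_option autoImplicit false

namespace Pool.Agent.Results.MP_edb5be_nt.CycleBasinsCircuits

open Filter
open DomAC0 (Circuit)

/-- The `3x+1` map on the integers. -/
def T (x : ℤ) : ℤ := if x % 2 = 0 then x / 2 else (3 * x + 1) / 2

/-- `Z` is a cycle of `T`: `Z = {x, T x, ..., T ^ (p - 1) x}` with `p ≥ 1` and `T ^ p x = x`. -/
def IsCycle (Z : Set ℤ) : Prop := ∃ (x : ℤ) (p : ℕ), 1 ≤ p ∧ T^[p] x = x ∧ Z = {y | ∃ i < p, T^[i] x = y}

/-- The five known cycles. -/
def Known : Set (Set ℤ) := {{1, 2}, {0}, {-1}, {-5, -7, -10}, {-17, -25, -37, -55, -82, -41, -61, -91, -136, -68, -34}}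

/-- The cycles which are not known. -/
def Unlisted : Set (Set ℤ) := {Z | IsCycle Z ∧ Z ∉ Known}

/-- The set of the positive integers `n` such that the trajectory of `s n` enters a member of the family `F`, for `s = 1` or
`s = -1`. -/
def Enters (F : Set (Set ℤ)) (s : ℤ) : Set ℕ := {n | 1 ≤ n ∧ ∃ Z ∈ F, ∃ k : ℕ, T^[k] (s * (n : ℤ)) ∈ Z}

/-- The `k` lowest binary digits of `n`. -/
def digits (k n : ℕ) : Fin k → Bool := fun i => n.testBit i

/-- The total influence of `S` on the integers with `k` binary digits: the mean, for `n < 2 ^ k`, of the number of the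
`i < k` such that exactly one of `n` and the integer `n xor 2 ^ i`, obtained by changing the digit `i` of `n`, is in `S`. -/
noncomputable def influence (S : Set ℕ) (k : ℕ) : ℝ :=
  ({p : ℕ × ℕ | p.1 < 2 ^ k ∧ p.2 < k ∧ ¬ (p.1 ∈ S ↔ p.1 ^^^ 2 ^ p.2 ∈ S)}.ncard : ℝ) / 2 ^ k

/-- The number of the `n < 2 ^ k` for which the circuit `Γ` is wrong about the membership in `S`. -/
noncomputable def errors (S : Set ℕ) {k : ℕ} (Γ : Circuit (Fin k)) : ℕ :=
  {n : ℕ | n < 2 ^ k ∧ ¬ (Γ.eval (digits k n) = true ↔ n ∈ S)}.ncard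

/-- `S` is hard: for each `0 < c < 1 / 2`, the total influence of `S` is larger than `k ^ c` for infinitely many `k`, and, for
infinitely many `k` and all `D ≥ 2` with `(D - 1) (log log k + 1) ≤ c log k`, each circuit of depth at most `D` and size at
most `exp (k ^ (c / (D - 1)))` is wrong about the membership in `S` for more than `2 ^ k / k ^ (1 - c)` of the `n < 2 ^ k`. -/
def Hard (S : Set ℕ) : Prop := ∀ c : ℝ, 0 < c → c < 1 / 2 →
  (∃ᶠ k : ℕ in atTop, (k : ℝ) ^ c < influence S k) ∧
  ∃ᶠ k : ℕ in atTop, ∀ D : ℕ, 2 ≤ D → ((D : ℝ) - 1) * (Real.log (Real.log k) + 1) ≤ c * Real.log k →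
    ∀ Γ : Circuit (Fin k), Γ.depth ≤ D → (Γ.size : ℝ) ≤ Real.exp ((k : ℝ) ^ (c / ((D : ℝ) - 1))) →
      (2 : ℝ) ^ k / (k : ℝ) ^ (1 - c) < errors S Γ

/-- `S` is in `AC0`: the membership of the integers `1 ≤ n < 2 ^ k` is decided by circuits of constant depth and polynomial
size. -/
def AC0 (S : Set ℕ) : Prop :=
  ∃ D A : ℕ, ∀ k : ℕ, 1 ≤ k → ∃ Γ : Circuit (Fin k), Γ.depth ≤ D ∧ Γ.size ≤ k ^ A ∧
    ∀ n, 1 ≤ n → n < 2 ^ k → (Γ.eval (digits k n) = true ↔ n ∈ S)

/-- For all large `k`, the membership of the integers `1 ≤ n < 2 ^ k` in `S` is decided by circuits of polynomial size and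
of depth at most `a log k / log log k`, where `a < 1 / 2`. -/
def Poly (S : Set ℕ) : Prop :=
  ∃ (A : ℕ) (a : ℝ), a < 1 / 2 ∧ ∀ᶠ k : ℕ in atTop, ∃ Γ : Circuit (Fin k), Γ.size ≤ k ^ A ∧
    (Γ.depth : ℝ) ≤ a * (Real.log k / Real.log (Real.log k)) ∧
    ∀ n, 1 ≤ n → n < 2 ^ k → (Γ.eval (digits k n) = true ↔ n ∈ S)

/-- For some `0 < c < 1 / 2` and all large `k` there are a `D ≥ 2` with `(D - 1) (log log k + 1) ≤ c log k` and a circuit of
depth at most `D` and size at most `exp (k ^ (c / (D - 1)))` that is wrong about the membership in `S` for at most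
`2 ^ k / k ^ (1 - c)` of the `n < 2 ^ k`. -/
def Approx (S : Set ℕ) : Prop :=
  ∃ c : ℝ, 0 < c ∧ c < 1 / 2 ∧ ∀ᶠ k : ℕ in atTop, ∃ D : ℕ, 2 ≤ D ∧
    ((D : ℝ) - 1) * (Real.log (Real.log k) + 1) ≤ c * Real.log k ∧
    ∃ Γ : Circuit (Fin k), Γ.depth ≤ D ∧ (Γ.size : ℝ) ≤ Real.exp ((k : ℝ) ^ (c / ((D : ℝ) - 1))) ∧
      (errors S Γ : ℝ) ≤ (2 : ℝ) ^ k / (k : ℝ) ^ (1 - c)

open Pool.Agent.H620

theorem cycle_T {Z : Set ℤ} (hZ : IsCycle Z) {y : ℤ} (hy : y ∈ Z) : T y ∈ Z := by
  obtain ⟨x, p, hp, hx, rfl⟩ := hZ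
  obtain ⟨i, hi, rfl⟩ := hy
  by_cases h : i + 1 < p
  · exact ⟨i + 1, h, by rw [Function.iterate_succ_apply']⟩
  · have : i + 1 = p := by omega
    refine ⟨0, by omega, ?_⟩
    have e : T (T^[i] x) = T^[i + 1] x := (Function.iterate_succ_apply' T i x).symm
    rw [e, this, hx]
    rfl

theorem cycle_iter {Z : Set ℤ} (hZ : IsCycle Z) {y : ℤ} (hy : y ∈ Z) (k : ℕ) : T^[k] y ∈ Z := by
  induction k with
  | zero => exact hy
  | succ k ih => rw [Function.iterate_succ_apply']; exact cycle_T hZ ih

theorem cycle_eq {Z : Set ℤ} (hZ : IsCycle Z) {y : ℤ} (hy : y ∈ Z) : Z = {z | ∃ i : ℕ, T^[i] y = z} := by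
  ext z
  constructor
  · intro hz
    obtain ⟨x, p, hp, hx, rfl⟩ := hZ
    obtain ⟨j, hj, rfl⟩ := hy
    obtain ⟨i, hi, rfl⟩ := hz
    refine ⟨i + (p - j), ?_⟩
    rw [← Function.iterate_add_apply]
    have : i + (p - j) + j = i + p := by omega
    rw [this, Function.iterate_add_apply, hx]
  · rintro ⟨i, rfl⟩
    exact cycle_iter hZ hy i

theorem cycle_unique {Z W : Set ℤ} (hZ : IsCycle Z) (hW : IsCycle W) {y : ℤ} (h1 : y ∈ Z) (h2 : y ∈ W) : Z = W := by
  rw [cycle_eq hZ h1, cycle_eq hW h2]

theorem cyc_one : IsCycle {1, 2} := by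
  refine ⟨1, 2, by norm_num, by decide, ?_⟩
  ext y
  simp only [Set.mem_insert_iff, Set.mem_singleton_iff, Set.mem_ofPred_eq]
  constructor
  · rintro (rfl | rfl)
    · exact ⟨0, by norm_num, rfl⟩
    · exact ⟨1, by norm_num, by decide⟩
  · rintro ⟨i, hi, rfl⟩
    interval_cases i
    · left; rfl
    · right; decide

theorem cyc_neg : IsCycle {-1} := by
  refine ⟨-1, 1, by norm_num, by decide, ?_⟩
  ext y
  simp only [Set.mem_singleton_iff, Set.mem_ofPred_eq]
  constructor
  · rintro rfl
    exact ⟨0, by norm_num, rfl⟩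
  · rintro ⟨i, hi, rfl⟩
    interval_cases i
    rfl

theorem cyc_zero : IsCycle {0} := by
  refine ⟨0, 1, by norm_num, by decide, ?_⟩
  ext y
  simp only [Set.mem_singleton_iff, Set.mem_ofPred_eq]
  constructor
  · rintro rfl
    exact ⟨0, by norm_num, rfl⟩
  · rintro ⟨i, hi, rfl⟩
    interval_cases i
    rfl

/-- The integers whose trajectory enters a member of the family. -/
def EZ (F : Set (Set ℤ)) : Set ℤ := {x | ∃ Z ∈ F, ∃ k : ℕ, T^[k] x ∈ Z}

theorem inv {F : Set (Set ℤ)} (hF : ∀ Z ∈ F, IsCycle Z) : Pool.Agent.H499R2.ND.Inv 1 (EZ F) := by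
  intro x
  show x ∈ EZ F ↔ T x ∈ EZ F
  constructor
  · rintro ⟨Z, hZ, k, hk⟩
    refine ⟨Z, hZ, k, ?_⟩
    have e : T^[k] (T x) = T (T^[k] x) := by
      rw [← Function.iterate_succ_apply T k x, Function.iterate_succ_apply']
    rw [e]
    exact cycle_T (hF Z hZ) hk
  · rintro ⟨Z, hZ, k, hk⟩
    exact ⟨Z, hZ, k + 1, by rw [Function.iterate_succ_apply]; exact hk⟩

theorem large {F : Set (Set ℤ)} (hF : ∀ Z ∈ F, IsCycle Z) {s : ℤ} (hs : s = 1 ∨ s = -1) (h1 : (Enters F s).Nonempty)
    (h2 : ∃ n, 1 ≤ n ∧ n ∉ Enters F s) : Inf2.Large (fun n => n ∈ Enters F s) := by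
  obtain ⟨m, hm, hmF⟩ := h1
  obtain ⟨m', hm', hmF'⟩ := h2
  have hss : s * s = 1 := by rcases hs with rfl | rfl <;> norm_num
  refine Inf2.Large.congr (g := fun n : ℕ => s * (n : ℤ) ∈ EZ F) (fun n hn => ?_) fun η hη =>
    Inf2.side_influence hs (inv hF) ⟨s * m, ?_, hmF⟩ ⟨s * m', ?_, fun g => hmF' ⟨hm', g⟩⟩ η hη
  · exact ⟨fun g => g.2, fun g => ⟨hn, g⟩⟩
  · rw [← mul_assoc, hss, one_mul]; exact_mod_cast hm
  · rw [← mul_assoc, hss, one_mul]; exact_mod_cast hm'

theorem one_not {s : ℤ} (hs : s = 1 ∨ s = -1) : (1 : ℕ) ∉ Enters Unlisted s := by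
  rintro ⟨_, Z, ⟨hZ, hZk⟩, k, hk⟩
  apply hZk
  rcases hs with rfl | rfl
  · have h1 : T^[k] ((1 : ℤ) * ((1 : ℕ) : ℤ)) ∈ ({1, 2} : Set ℤ) := cycle_iter cyc_one (by norm_num) k
    rw [cycle_unique hZ cyc_one hk h1]
    left; rfl
  · have h1 : T^[k] ((-1 : ℤ) * ((1 : ℕ) : ℤ)) ∈ ({-1} : Set ℤ) := cycle_iter cyc_neg (by norm_num) k
    rw [cycle_unique hZ cyc_neg hk h1]
    right; right; left; rfl

theorem q1_iff : (∀ Z, IsCycle Z → Z ∈ Known) ↔ ∀ s : ℤ, (s = 1 ∨ s = -1) → Enters Unlisted s = ∅ := by
  constructor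
  · intro h s _
    rw [Set.eq_empty_iff_forall_notMem]
    rintro n ⟨_, Z, ⟨hZ, hZk⟩, _⟩
    exact hZk (h Z hZ)
  · intro h Z hZ
    by_contra hZk
    have hZ' := hZ
    obtain ⟨x, p, hp, hx, hZe⟩ := hZ'
    have hxZ : x ∈ Z := by
      rw [hZe]
      exact ⟨0, by omega, rfl⟩
    rcases lt_trichotomy x 0 with h0 | h0 | h0
    · have h1 : x.natAbs ∈ Enters Unlisted (-1) := by
        refine ⟨by omega, Z, ⟨hZ, hZk⟩, 0, ?_⟩
        have e : (-1 : ℤ) * (x.natAbs : ℤ) = x := by omega
        rw [e]; exact hxZ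
      rw [h (-1) (Or.inr rfl)] at h1
      exact h1
    · subst h0
      apply hZk
      rw [cycle_unique hZ cyc_zero hxZ rfl]
      right; left; rfl
    · have h1 : x.natAbs ∈ Enters Unlisted 1 := by
        refine ⟨by omega, Z, ⟨hZ, hZk⟩, 0, ?_⟩
        have e : (1 : ℤ) * (x.natAbs : ℤ) = x := by omega
        rw [e]; exact hxZ
      rw [h 1 (Or.inl rfl)] at h1
      exact h1

/-- (1) Let `F` be a family of cycles of `T`, known or unknown, and `s = 1` or `s = -1`. If `Enters F s` is neither empty nor the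
set of all positive integers, then it is hard. (2) The following are equivalent: every cycle of `T` is one of the five
known cycles; for both signs `s` the set of the `n` such that `s n` enters a cycle which is not known is in `AC0`; both sets
are decided by circuits of polynomial size and depth at most `a log k / log log k`, where `a < 1 / 2`; both are decided up to a
proportion `1 / k ^ (1 - c)` of exceptions by circuits of the size and depth in the definition of `Hard`. -/
theorem result :
    (∀ F : Set (Set ℤ), (∀ Z ∈ F, IsCycle Z) → ∀ s : ℤ, (s = 1 ∨ s = -1) → (Enters F s).Nonempty →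
      (∃ n, 1 ≤ n ∧ n ∉ Enters F s) → Hard (Enters F s)) ∧
    List.TFAE [∀ Z, IsCycle Z → Z ∈ Known, ∀ s : ℤ, (s = 1 ∨ s = -1) → AC0 (Enters Unlisted s),
      ∀ s : ℤ, (s = 1 ∨ s = -1) → Poly (Enters Unlisted s), ∀ s : ℤ, (s = 1 ∨ s = -1) → Approx (Enters Unlisted s)] := by
  refine ⟨fun F hF s hs hne hne' γ hγ0 hγ => ⟨Inf2.large_infl (large hF hs hne hne') hγ,
    Inf2.large_depth (large hF hs hne hne') hγ0 hγ⟩, ?_⟩
  rw [q1_iff]
  have h1 : ∀ s : ℤ, (s = 1 ∨ s = -1) → List.TFAE [Enters Unlisted s = ∅, Inf2.AC0 (Enters Unlisted s),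
      Inf2.Poly (Enters Unlisted s), Inf2.Approx (Enters Unlisted s)] := fun s hs =>
    Inf2.tfae_of (S := Enters Unlisted s) (fun g => Inf2.AC0_none (by rw [g]; exact fun n _ h => h))
    (fun g => large (fun Z hZ => hZ.1) hs (Set.nonempty_iff_ne_empty.2 g) ⟨1, le_rfl, one_not hs⟩)
  tfae_have 1 → 2 := fun h s hs => ((h1 s hs).out 0 1).1 (h s hs)
  tfae_have 2 → 3 := fun h s hs => ((h1 s hs).out 1 2).1 (h s hs)
  tfae_have 3 → 4 := fun h s hs => ((h1 s hs).out 2 3).1 (h s hs)
  tfae_have 4 → 1 := fun h s hs => ((h1 s hs).out 3 0).1 (h s hs)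
  tfae_finish

end Pool.Agent.Results.MP_edb5be_nt.CycleBasinsCircuits
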