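import Mathlib
import Pool.Agent.H621.Osc.Entropy

set_option autoImplicit false

/-!
# Classification of the cycles of the 3x+1 map on the integers with few parity words

The five known cycles are the only cycles of the `3x+1` map on the integers for which there is a
number `K ≥ 1` such that the elements satisfy `|x| ≤ 10^6 |y|^K` and at most `100 * 2 ^ (n / (15 K))`
different parity words of length `n` can be read along the cycle, for all `n`. So the entropy of the
parity words is weighed against the oscillation of the cycle, and there is no exception.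

Proof. Let `m` be the least absolute value of the elements of such a cycle with `p` elements.
* Two elements with the same next `n` parities differ by a multiple of `2^n`. For the least `n` with
  `10^6 m^K < 2^n` there are therefore `p` parity words of length `n`, and `p^15 ≤ 2 * 10^36 m`.
* (Linear form) `|p log 2 - o log 3| ≤ p / (2.9 m)` for the number `o` of the odd elements.
* (Lower bound) `1 ≤ 2 ^ 243 (p - o) ^ 11 |p log 2 - o log 3|` if `p < 2 o`, `3 o < 2 p`. This comes
  from the integrals of `(x-6)^(16 m) (x-8)^(11 m) (x-9)^(7 m) (5x-36)^(4 m) / x^(19 m + 1)` over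
  `[6, 8]` and `[8, 9]`, and the bound `lcm (1, ..., n) ≤ exp (1.11 n)` of Chebyshev type, proved for
  all `n`. It gives `p < 2 ^ 122`.
* Four pairs of convergents of `log 2 / log 3` (enclosures of `log 2`, `log 3` with 14000 binary
  digits) reduce this to `p < 2 ^ 46`, `p < 50508`, `p < 1054` and finally to `m < 224000`.
* For `m < 224000` the trajectories are computed until they fall below their starting point.
-/

namespace Pool.Agent.Results.MP_edb5be_nt.EntropyClassification

/-- the `3x+1` map on the integers -/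
def T (x : ℤ) : ℤ := if x % 2 = 0 then x / 2 else (3 * x + 1) / 2

/-- `Z` is a cycle of `T`: `Z = {x, T x, ..., T^(p-1) x}` with `p ≥ 1` and `T^p x = x` -/
def IsCycle (Z : Finset ℤ) : Prop :=
  ∃ (x : ℤ) (p : ℕ), 1 ≤ p ∧ T^[p] x = x ∧ Z = (Finset.range p).image fun i => T^[i] x

/-- the parity words of length `n` of the elements of `Z`: for `x ∈ Z` the word is
`x mod 2, T x mod 2, ..., T^(n-1) x mod 2` -/
def words (Z : Finset ℤ) (n : ℕ) : Finset (Fin n → ℤ) :=
  Z.image fun x => fun i : Fin n => T^[(i : ℕ)] x % 2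

theorem T_eq : T = Pool.Agent.H621.Osc.T 1 := by
  funext x; rfl

theorem isCycle_iff (Z : Finset ℤ) : IsCycle Z ↔ Pool.Agent.H621.Osc.IsCycle 1 Z := by
  unfold IsCycle Pool.Agent.H621.Osc.IsCycle
  rw [T_eq]

theorem words_eq (Z : Finset ℤ) (n : ℕ) : words Z n = Pool.Agent.H621.Osc.words 1 Z n := by
  unfold words Pool.Agent.H621.Osc.words
  rw [T_eq]

/-- A finite set of integers `Z` is a cycle of the `3x+1` map such that for some natural number
`K ≥ 1` all its elements satisfy `|x| ≤ 10^6 |y|^K` and, for all `n`, at most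
`100 * 2 ^ (n / (15 K))` different parity words of length `n` can be read along `Z`, if and only if
it is one of the five known cycles. -/
theorem result (Z : Finset ℤ) :
    (IsCycle Z ∧ ∃ K : ℕ, 1 ≤ K ∧
      (∀ x ∈ Z, ∀ y ∈ Z, |(x : ℝ)| ≤ 10 ^ 6 * |(y : ℝ)| ^ K) ∧
      ∀ n : ℕ, ((words Z n).card : ℝ) ≤ 100 * 2 ^ ((n : ℝ) / (15 * K))) ↔
      Z = {0} ∨ Z = {-1} ∨ Z = {1, 2} ∨ Z = {-5, -7, -10} ∨
        Z = {-17, -25, -37, -55, -82, -41, -61, -91, -136, -68, -34} := by
  rw [← Pool.Agent.H621.Osc.classification_ent, isCycle_iff]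
  apply and_congr_right
  intro _
  apply exists_congr
  intro K
  apply and_congr_right
  intro hK
  have hK0 : (0 : ℝ) < 15 * (K : ℝ) := by
    have : (1 : ℝ) ≤ K := by exact_mod_cast hK
    linarith
  apply and_congr
  · have key : ∀ x y : ℤ, |(x : ℝ)| ≤ 10 ^ 6 * |(y : ℝ)| ^ K ↔ |x| ≤ 10 ^ 6 * |y| ^ K := by
      intro x y
      exact_mod_cast Iff.rfl
    constructor
    · intro h x hx y hy
      exact (key x y).1 (h x hx y hy)
    · intro h x hx y hy
      exact (key x y).2 (h x hx y hy)
  · apply forall_congr'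
    intro n
    rw [words_eq]
    set c := (Pool.Agent.H621.Osc.words 1 Z n).card
    have e1 : ((2 : ℝ) ^ ((n : ℝ) / (15 * K))) ^ (15 * K) = 2 ^ n := by
      rw [← Real.rpow_natCast ((2 : ℝ) ^ ((n : ℝ) / (15 * K))), ← Real.rpow_mul (by norm_num)]
      push_cast
      rw [div_mul_cancel₀ _ hK0.ne', Real.rpow_natCast]
    have e2 : ((c : ℝ)) ^ (15 * K) ≤ (100 * 2 ^ ((n : ℝ) / (15 * K))) ^ (15 * K) ↔
        (c : ℝ) ≤ 100 * 2 ^ ((n : ℝ) / (15 * K)) :=
      pow_le_pow_iff_left₀ (Nat.cast_nonneg _) (by positivity) (by omega)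
    rw [← e2, mul_pow, e1]
    exact_mod_cast Iff.rfl

end Pool.Agent.Results.MP_edb5be_nt.EntropyClassification
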