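import Mathlib
import Pool.Agent.H621.Osc.Final

set_option autoImplicit false

/-!
# Classification of the cycles of the 3x+1 map on the integers with oscillation at most 3.28

The four cycles `{0}`, `{-1}`, `{1, 2}`, `{-5, -7, -10}` are the only cycles of the `3x+1` map on the
integers in which no element is more than `3.28` times as large (in absolute value) as another one.

Proof. Let `m` be the least absolute value of the elements of a cycle with `p` elements.
* (Count) Along the cycle the logarithms of the elements modulo `log 3` are, up to a tiny drift, a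
  rotation by `log 2`; the parities are determined by the visits of the rotation to a window of
  length `log 3.28 - log 3` and one bit for each visit. The number of the visits is bounded with the
  denominators `84, 1054, 24727` of convergents of `log 2 / log 3`. As two elements with the same
  next `log_2 (2.28 m)` parities are equal, `p` is at most about `m ^ 0.0813`.
* (Linear form) `|p log 2 - o log 3| ≤ p / (2.9 m)` for the number `o` of the odd elements.
* (Lower bound) `1 ≤ 2 ^ 243 (p - o) ^ 11 |p log 2 - o log 3|` if `p < 2 o`, `3 o < 2 p`. This comes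
  from the integrals of `(x-6)^(16 m) (x-8)^(11 m) (x-9)^(7 m) (5x-36)^(4 m) / x^(19 m + 1)` over
  `[6, 8]` and `[8, 9]`, and the bound `lcm (1, ..., n) ≤ exp (1.11 n)` of Chebyshev type, proved for
  all `n`. It is sufficient for `m ≥ 2 ^ 84720`.
* For `2 ^ 99 ≤ m ≤ 2 ^ 84720` the lower bound comes from five pairs of convergents of
  `log 2 / log 3` and enclosures of `log 2`, `log 3` with 14000 binary digits.
* For `m < 2 ^ 99` the residue classes modulo `2 ^ 100` of the possible least elements are enumerated.
-/

namespace Pool.Agent.Results.MP_edb5be_nt.OscillationClassification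

/-- the `3x+1` map on the integers -/
def T (x : ℤ) : ℤ := if x % 2 = 0 then x / 2 else (3 * x + 1) / 2

/-- `Z` is a cycle of `T`: `Z = {x, T x, ..., T^(p-1) x}` with `p ≥ 1` and `T^p x = x` -/
def IsCycle (Z : Finset ℤ) : Prop :=
  ∃ (x : ℤ) (p : ℕ), 1 ≤ p ∧ T^[p] x = x ∧ Z = (Finset.range p).image fun i => T^[i] x

theorem T_eq : T = Pool.Agent.H621.Osc.T 1 := by
  funext x; rfl

theorem isCycle_iff (Z : Finset ℤ) : IsCycle Z ↔ Pool.Agent.H621.Osc.IsCycle 1 Z := by
  unfold IsCycle Pool.Agent.H621.Osc.IsCycle
  rw [T_eq]

/-- A finite set of integers is a cycle of the `3x+1` map in which the absolute value of each element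
is at most `3.28` times the absolute value of each other element if and only if it is one of the
four cycles `{0}`, `{-1}`, `{1, 2}`, `{-5, -7, -10}`. -/
theorem result (Z : Finset ℤ) :
    (IsCycle Z ∧ ∀ x ∈ Z, ∀ y ∈ Z, |(x : ℝ)| ≤ 3.28 * |(y : ℝ)|) ↔
      Z = {0} ∨ Z = {-1} ∨ Z = {1, 2} ∨ Z = {-5, -7, -10} := by
  rw [← Pool.Agent.H621.Osc.classification, isCycle_iff]
  apply and_congr_right
  intro _
  have key : ∀ x y : ℤ, |(x : ℝ)| ≤ 3.28 * |(y : ℝ)| ↔ 100 * |x| ≤ 328 * |y| := by
    intro x y
    have e : |(x : ℝ)| ≤ 3.28 * |(y : ℝ)| ↔ 100 * |(x : ℝ)| ≤ 328 * |(y : ℝ)| := by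
      constructor <;> intro h <;> linarith
    rw [e]
    exact_mod_cast Iff.rfl
  constructor
  · intro h x hx y hy
    exact (key x y).1 (h x hx y hy)
  · intro h x hx y hy
    exact (key x y).2 (h x hx y hy)

end Pool.Agent.Results.MP_edb5be_nt.OscillationClassification
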